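import Mathlib.Algebra.Notation.Lemmas
import Mathlib.Algebra.Order.Ring.Star
import Mathlib.InformationTheory.Hamming
import Mathlib.Topology.Sheaves.Presheaf
import Mathlib.Data.Int.Star
import Mathlib.Algebra.Order.Star.Real
import Mathlib.Analysis.Complex.ExponentialBounds
import Mathlib.Combinatorics.SimpleGraph.Finite
import Mathlib.Tactic.Algebra.Basic

-- ======== part 0: formerly Pool.Agent.MP_a7b5fd_co.Count
section MrgPart0

/-!
# Counting bipartite graphs given by token matchings
-/

set_option autoImplicit false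

namespace Pool.Agent.MP_a7b5fd_co

open Finset

section Count

variable {A B J : Type} [Fintype A] [Fintype B] [Fintype J]
  [DecidableEq A] [DecidableEq B] [DecidableEq J]

open Classical in
/-- The number of pairs of tokens of `a` and of `b` with equal labels. -/
noncomputable def mt {L : Type} (lam : (A ⊕ B) × J → L) (a : A) (b : B) : ℕ :=
  (univ.filter fun jj : J × J => lam (Sum.inl a, jj.1) = lam (Sum.inr b, jj.2)).card

/-- `E` has left degrees at most `D` and is cut out by a labelling coarser than `p`. -/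
def Good (D : ℕ) (φ : A → B → ℕ → Prop) (p : (A ⊕ B) × J → (A ⊕ B) × J)
    (E : Finset (A × B)) : Prop :=
  (∀ a, (E.filter fun e => e.1 = a).card ≤ D) ∧
  ∃ (L : Type) (lam : (A ⊕ B) × J → L), (∀ x y, p x = p y → lam x = lam y) ∧
    ∀ a b, (a, b) ∈ E ↔ φ a b (mt lam a b)

omit [Fintype A] [Fintype B] [DecidableEq A] [DecidableEq B] [DecidableEq J] in
lemma mt_le {L L' : Type} {p : (A ⊕ B) × J → L'} {lam : (A ⊕ B) × J → L}
    (h : ∀ x y, p x = p y → lam x = lam y) (a : A) (b : B) : mt p a b ≤ mt lam a b := by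
  classical
  unfold mt
  apply card_le_card
  intro jj
  simp only [mem_filter, mem_univ, true_and]
  exact h _ _

omit [Fintype A] [Fintype B] [DecidableEq A] [DecidableEq B] [DecidableEq J] in
lemma exists_of_mt_lt {L L' : Type} {p : (A ⊕ B) × J → L'} {lam : (A ⊕ B) × J → L}
    {a : A} {b : B} (h : mt p a b < mt lam a b) :
    ∃ j j', lam (Sum.inl a, j) = lam (Sum.inr b, j') ∧ p (Sum.inl a, j) ≠ p (Sum.inr b, j') := by
  classical
  by_contra hne
  push Not at hne
  exact absurd h (not_lt.2 (by
    unfold mt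
    apply card_le_card
    intro jj
    simp only [mem_filter, mem_univ, true_and]
    exact hne _ _))

/-- Merge the class of `u` into the class of `v`. -/
def merge {T : Type} [DecidableEq T] (p : T → T) (u v : T) : T → T :=
  fun x => if p x = p u then p v else p x

lemma card_image_merge {T : Type} [Fintype T] [DecidableEq T] (p : T → T) {u v : T}
    (h : p u ≠ p v) :
    (univ.image (merge p u v)).card + 1 ≤ (univ.image p).card := by
  have h1 : univ.image (merge p u v) ⊆ (univ.image p).erase (p u) := by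
    intro y hy
    simp only [mem_image, mem_univ, true_and] at hy
    obtain ⟨x, rfl⟩ := hy
    simp only [merge, mem_erase, mem_image, mem_univ, true_and]
    split_ifs with hx
    · exact ⟨h.symm, v, rfl⟩
    · exact ⟨hx, x, rfl⟩
  have h2 := card_le_card h1
  rw [card_erase_of_mem (by simp)] at h2
  have h3 : 0 < (univ.image p).card := card_pos.2 ⟨p u, by simp⟩
  omega

lemma merge_compat {T L : Type} [DecidableEq T] {p : T → T} {lam : T → L} {u v : T}
    (h : ∀ x y, p x = p y → lam x = lam y) (huv : lam u = lam v) (x y : T)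
    (hxy : merge p u v x = merge p u v y) : lam x = lam y := by
  simp only [merge] at hxy
  split_ifs at hxy with hx hy hy
  · exact h _ _ (hx.trans hy.symm)
  · rw [h _ _ hx, huv, h _ _ hxy]
  · rw [h _ _ hy, huv, h _ _ hxy]
  · exact h _ _ hxy

open Classical in
lemma card_good_le (D : ℕ) (φ : A → B → ℕ → Prop)
    (hφ : ∀ a b k k', k ≤ k' → φ a b k' → φ a b k) (c : ℕ) :
    ∀ p : (A ⊕ B) × J → (A ⊕ B) × J, (univ.image p).card ≤ c →
      (univ.filter (Good D φ p)).card ≤
        ((D + 1) * (Fintype.card J * Fintype.card J) + 1) ^ c * 2 ^ (D * Fintype.card A) := by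
  induction c using Nat.strong_induction_on with
  | _ c ih =>
  intro p hp
  set W := (D + 1) * (Fintype.card J * Fintype.card J) + 1 with hW
  let R : Finset (A × B) := univ.filter fun e => φ e.1 e.2 (mt p e.1 e.2)
  have hsub : ∀ E, Good D φ p E → E ⊆ R := by
    rintro E ⟨-, L, lam, h1, h2⟩ ⟨a, b⟩ hab
    simp only [R, mem_filter, mem_univ, true_and]
    exact hφ _ _ _ _ (mt_le h1 a b) ((h2 a b).1 hab)
  by_cases hR : ∀ a, (R.filter fun e => e.1 = a).card ≤ D
  · have h1 : univ.filter (Good D φ p) ⊆ R.powerset := by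
      intro E hE
      exact mem_powerset.2 (hsub E (mem_filter.1 hE).2)
    have h2 : R.card ≤ D * Fintype.card A := by
      have := card_le_mul_card_image_of_maps_to (f := fun e : A × B => e.1) (s := R)
        (t := univ) (fun _ _ => mem_univ _) D (fun a _ => hR a)
      simpa using this
    calc _ ≤ R.powerset.card := card_le_card h1
      _ = 2 ^ R.card := card_powerset R
      _ ≤ 2 ^ (D * Fintype.card A) := Nat.pow_le_pow_right (by norm_num) h2
      _ ≤ _ := Nat.le_mul_of_pos_left _ (pow_pos (by omega) _)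
  · push Not at hR
    obtain ⟨a, ha⟩ := hR
    obtain ⟨S, hS1, hS2⟩ := exists_subset_card_eq (n := D + 1) (Nat.succ_le_of_lt ha)
    let I : Finset ((A × B) × (J × J)) := (S ×ˢ univ).filter fun i =>
      p (Sum.inl i.1.1, i.2.1) ≠ p (Sum.inr i.1.2, i.2.2)
    have hcover : univ.filter (Good D φ p) ⊆ I.biUnion fun i =>
        univ.filter (Good D φ (merge p (Sum.inl i.1.1, i.2.1) (Sum.inr i.1.2, i.2.2))) := by
      intro E hE
      obtain ⟨hdeg, L, lam, h1, h2⟩ := (mem_filter.1 hE).2
      have h3 : ∃ e ∈ S, e ∉ E := by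
        by_contra hcon
        push Not at hcon
        have : S ⊆ E.filter fun e => e.1 = a := fun e he =>
          mem_filter.2 ⟨hcon e he, (mem_filter.1 (hS1 he)).2⟩
        have := (card_le_card this).trans (hdeg a)
        omega
      obtain ⟨⟨a', b⟩, he, heE⟩ := h3
      have h4 : φ a' b (mt p a' b) := (mem_filter.1 (mem_filter.1 (hS1 he)).1).2
      have h5 : mt p a' b < mt lam a' b := by
        by_contra hcon
        exact heE ((h2 a' b).2 (hφ _ _ _ _ (not_lt.1 hcon) h4))
      obtain ⟨j, j', h6, h7⟩ := exists_of_mt_lt h5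
      refine mem_biUnion.2 ⟨((a', b), (j, j')), ?_, ?_⟩
      · simp only [I, mem_filter, mem_product, mem_univ, and_true]
        exact ⟨he, h7⟩
      · exact mem_filter.2 ⟨mem_univ _, hdeg, L, lam, merge_compat h1 h6, h2⟩
    have hI : I.card ≤ W := by
      refine (card_filter_le _ _).trans ?_
      rw [card_product, hS2, card_univ, Fintype.card_prod]
      omega
    rcases Nat.eq_zero_or_pos c with rfl | hc
    · have : I = ∅ := by
        rw [eq_empty_iff_forall_notMem]
        intro i hi
        have := card_image_merge p (mem_filter.1 hi).2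
        omega
      rw [this] at hcover
      simp only [biUnion_empty, subset_empty] at hcover
      simp [hcover]
    · obtain ⟨c', rfl⟩ : ∃ c', c = c' + 1 := ⟨c - 1, by omega⟩
      calc _ ≤ _ := card_le_card hcover
        _ ≤ ∑ i ∈ I, W ^ c' * 2 ^ (D * Fintype.card A) := by
          refine card_biUnion_le.trans (sum_le_sum fun i hi => ?_)
          refine ih c' (Nat.lt_succ_self _) _ ?_
          have := card_image_merge p (mem_filter.1 hi).2
          omega
        _ = I.card * (W ^ c' * 2 ^ (D * Fintype.card A)) := by simp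
        _ ≤ W * (W ^ c' * 2 ^ (D * Fintype.card A)) := Nat.mul_le_mul_right _ hI
        _ = _ := by ring

end Count

section Enum

variable {L : Type}

/-- Enumerate a finite set by `K` tokens, padding with a dummy label. -/
noncomputable def enum (K : ℕ) (S : Finset L) (side : Bool) (j : Fin K) : L ⊕ Bool :=
  if h : (j : ℕ) < S.card then Sum.inl (S.equivFin.symm ⟨j, h⟩ : L) else Sum.inr side

open Classical in
lemma card_enum_eq (K : ℕ) (S T : Finset L) (hS : S.card ≤ K) (hT : T.card ≤ K) :
    (univ.filter fun jj : Fin K × Fin K => enum K S false jj.1 = enum K T true jj.2).card =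
      (S ∩ T).card := by
  symm
  refine card_bij (fun x hx =>
    ((⟨S.equivFin ⟨x, (mem_inter.1 hx).1⟩, lt_of_lt_of_le (Fin.is_lt _) hS⟩ : Fin K),
     (⟨T.equivFin ⟨x, (mem_inter.1 hx).2⟩, lt_of_lt_of_le (Fin.is_lt _) hT⟩ : Fin K))) ?_ ?_ ?_
  · intro x hx
    simp [enum]
  · intro x hx y hy h
    have h1 := congrArg (fun z : Fin K × Fin K => (z.1 : ℕ)) h
    simp only at h1
    have h2 := S.equivFin.injective (Fin.ext h1)
    exact congrArg Subtype.val h2
  · rintro ⟨j, j'⟩ h
    simp only [mem_filter, mem_univ, true_and, enum] at h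
    split_ifs at h with h1 h2 h2
    · have h3 : (S.equivFin.symm ⟨j, h1⟩ : L) = (T.equivFin.symm ⟨j', h2⟩ : L) := Sum.inl.inj h
      refine ⟨(S.equivFin.symm ⟨j, h1⟩ : L), mem_inter.2 ⟨Subtype.property _, ?_⟩, ?_⟩
      · rw [h3]
        exact Subtype.property _
      · ext
        · simp
        · simp only [h3]
          simp
    · simp at h

end Enum

section Tok

variable {d : ℕ}

/-- The tokens of the vector `x` with respect to the base point `z`. -/
def tok (z x : Fin d → ℤ) : Finset (Fin d × Option ℤ) :=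
  (univ.filter fun i => x i ≠ z i).biUnion fun i => {(i, none), (i, some (x i))}

lemma mem_tok {z x : Fin d → ℤ} {i : Fin d} {o : Option ℤ} :
    (i, o) ∈ tok z x ↔ x i ≠ z i ∧ (o = none ∨ o = some (x i)) := by
  simp only [tok, mem_biUnion, mem_filter, mem_univ, true_and, mem_insert, Prod.mk.injEq,
    mem_singleton]
  constructor
  · rintro ⟨j, hj, ⟨rfl, rfl⟩ | ⟨rfl, rfl⟩⟩
    · exact ⟨hj, Or.inl rfl⟩
    · exact ⟨hj, Or.inr rfl⟩
  · rintro ⟨h, rfl | rfl⟩
    · exact ⟨i, h, Or.inl ⟨rfl, rfl⟩⟩
    · exact ⟨i, h, Or.inr ⟨rfl, rfl⟩⟩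

lemma card_tok_le (z x : Fin d → ℤ) : (tok z x).card ≤ 2 * hammingDist x z := by
  refine card_biUnion_le.trans ?_
  refine (sum_le_sum (g := fun _ => 2) fun i _ => card_le_two).trans ?_
  simp [hammingDist, mul_comm]

lemma dist_add_card_inter (z x y : Fin d → ℤ) :
    hammingDist x y + (tok z x ∩ tok z y).card = hammingDist x z + hammingDist y z := by
  have h1 : (tok z x ∩ tok z y).card =
      ∑ i, ((tok z x ∩ tok z y).filter fun e => e.1 = i).card :=
    card_eq_sum_card_fiberwise (fun _ _ => mem_univ _)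
  simp only [hammingDist, card_filter]
  rw [h1, ← sum_add_distrib, ← sum_add_distrib]
  refine sum_congr rfl fun i _ => ?_
  by_cases hx : x i = z i
  · have : ((tok z x ∩ tok z y).filter fun e => e.1 = i) = ∅ := by
      rw [eq_empty_iff_forall_notMem]
      rintro ⟨j, o⟩ h
      simp only [mem_filter, mem_inter, mem_tok] at h
      obtain ⟨⟨⟨h, -⟩, -⟩, rfl⟩ := h
      exact h hx
    rw [this, hx]
    simp [eq_comm]
  · by_cases hy : y i = z i
    · have : ((tok z x ∩ tok z y).filter fun e => e.1 = i) = ∅ := by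
        rw [eq_empty_iff_forall_notMem]
        rintro ⟨j, o⟩ h
        simp only [mem_filter, mem_inter, mem_tok] at h
        obtain ⟨⟨-, ⟨h, -⟩⟩, rfl⟩ := h
        exact h hy
      rw [this, hy]
      simp
    · by_cases hxy : x i = y i
      · have : ((tok z x ∩ tok z y).filter fun e => e.1 = i) = {(i, none), (i, some (x i))} := by
          ext ⟨j, o⟩
          simp only [mem_filter, mem_inter, mem_tok, mem_insert, Prod.mk.injEq, mem_singleton]
          constructor
          · rintro ⟨⟨⟨-, h⟩, -⟩, rfl⟩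
            rcases h with h | h
            · exact Or.inl ⟨rfl, h⟩
            · exact Or.inr ⟨rfl, h⟩
          · rintro (⟨rfl, rfl⟩ | ⟨rfl, rfl⟩)
            · exact ⟨⟨⟨hx, Or.inl rfl⟩, hy, Or.inl rfl⟩, rfl⟩
            · exact ⟨⟨⟨hx, Or.inr rfl⟩, hy, Or.inr (by rw [hxy])⟩, rfl⟩
        rw [this, card_pair (by simp)]
        simp [hxy, hy]
      · have : ((tok z x ∩ tok z y).filter fun e => e.1 = i) = {(i, none)} := by
          ext ⟨j, o⟩
          simp only [mem_filter, mem_inter, mem_tok, Prod.mk.injEq, mem_singleton]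
          constructor
          · rintro ⟨⟨⟨-, h⟩, -, h'⟩, rfl⟩
            rcases h with h | h
            · exact ⟨rfl, h⟩
            · rcases h' with h' | h'
              · exact ⟨rfl, h'⟩
              · exact absurd (Option.some.inj (h.symm.trans h')) hxy
          · rintro ⟨rfl, rfl⟩
            exact ⟨⟨⟨hx, Or.inl rfl⟩, hy, Or.inl rfl⟩, rfl⟩
        rw [this, card_singleton]
        simp [hxy, hx, hy]

end Tok

end Pool.Agent.MP_a7b5fd_co

end MrgPart0

-- ======== part 1: formerly Pool.Agent.MP_a7b5fd_co.Main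
section MrgPart1

/-!
# The lower bound for the threshold Prague dimension
-/

set_option autoImplicit false

namespace Pool.Agent.MP_a7b5fd_co

open Finset

/-- The bipartite relation `E` has a threshold representation with threshold at most `t₀` and a
base point close to all vectors. -/
def Rep {m : ℕ} (t₀ : ℕ) (E : Finset (Fin m × Fin m)) : Prop :=
  ∃ (t d : ℕ) (x y : Fin m → Fin d → ℤ) (z : Fin d → ℤ), t ≤ t₀ ∧
    (∀ a, hammingDist (x a) z < t) ∧ (∀ b, hammingDist (y b) z < t) ∧
    ∀ a b, (a, b) ∈ E ↔ t ≤ hammingDist (x a) (y b)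

lemma good_of_rep {m t₀ D : ℕ} {E : Finset (Fin m × Fin m)}
    (hdeg : ∀ a, (E.filter fun e => e.1 = a).card ≤ D) (h : Rep t₀ E) :
    ∃ s : Fin m ⊕ Fin m → Fin t₀,
      Good (J := Fin (2 * t₀)) D (fun a b k => k + t₀ ≤ s (Sum.inl a) + s (Sum.inr b)) id E := by
  classical
  obtain ⟨t, d, x, y, z, ht, hx, hy, hE⟩ := h
  refine ⟨Sum.elim (fun a => ⟨hammingDist (x a) z, (hx a).trans_le ht⟩)
    (fun b => ⟨hammingDist (y b) z + (t₀ - t), by have := hy b; omega⟩), hdeg,
    (Fin d × Option ℤ) ⊕ Bool,
    fun τ => Sum.elim (fun a => enum (2 * t₀) (tok z (x a)) false τ.2)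
      (fun b => enum (2 * t₀) (tok z (y b)) true τ.2) τ.1, ?_, ?_⟩
  · rintro u v rfl
    rfl
  · intro a b
    have h1 : mt (fun τ : (Fin m ⊕ Fin m) × Fin (2 * t₀) =>
        Sum.elim (fun a => enum (2 * t₀) (tok z (x a)) false τ.2)
          (fun b => enum (2 * t₀) (tok z (y b)) true τ.2) τ.1) a b =
        (tok z (x a) ∩ tok z (y b)).card := by
      have := card_enum_eq (2 * t₀) (tok z (x a)) (tok z (y b))
        ((card_tok_le _ _).trans (by have := hx a; omega))
        ((card_tok_le _ _).trans (by have := hy b; omega))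
      unfold mt
      convert this using 2
      · ext jj
        simp
      · ext e
        simp
    have h2 := dist_add_card_inter z (x a) (y b)
    rw [hE, h1]
    simp only [Sum.elim_inl, Sum.elim_inr]
    omega

open Classical in
lemma card_rep_le (m t₀ D : ℕ) :
    (univ.filter fun E : Finset (Fin m × Fin m) =>
      (∀ a, (E.filter fun e => e.1 = a).card ≤ D) ∧ Rep t₀ E).card ≤
      t₀ ^ (2 * m) * (((D + 1) * (2 * t₀ * (2 * t₀)) + 1) ^ (2 * m * (2 * t₀)) * 2 ^ (D * m)) := by
  have hcover : (univ.filter fun E : Finset (Fin m × Fin m) =>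
      (∀ a, (E.filter fun e => e.1 = a).card ≤ D) ∧ Rep t₀ E) ⊆
      (univ : Finset (Fin m ⊕ Fin m → Fin t₀)).biUnion fun s => univ.filter
        (Good (J := Fin (2 * t₀)) D
          (fun a b k => k + t₀ ≤ s (Sum.inl a) + s (Sum.inr b)) id) := by
    intro E hE
    obtain ⟨h1, h2⟩ := (mem_filter.1 hE).2
    obtain ⟨s, hs⟩ := good_of_rep h1 h2
    exact mem_biUnion.2 ⟨s, mem_univ _, mem_filter.2 ⟨mem_univ _, hs⟩⟩
  refine (card_le_card hcover).trans (card_biUnion_le.trans ?_)
  refine (sum_le_sum (g := fun _ =>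
    ((D + 1) * (2 * t₀ * (2 * t₀)) + 1) ^ (2 * m * (2 * t₀)) * 2 ^ (D * m)) fun s _ => ?_).trans ?_
  · have := card_good_le (A := Fin m) (B := Fin m) (J := Fin (2 * t₀)) D
      (fun a b k => k + t₀ ≤ s (Sum.inl a) + s (Sum.inr b))
      (fun a b k k' h1 h2 => by omega) (2 * m * (2 * t₀)) id (by simp [two_mul])
    simpa using this
  · simp [two_mul]

/-- The bipartite graph formed by `D` permutations. -/
def permGraph {m D : ℕ} (σ : Fin D → Equiv.Perm (Fin m)) : Finset (Fin m × Fin m) :=
  univ.image fun aj : Fin m × Fin D => (aj.1, σ aj.2 aj.1)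

lemma mem_permGraph {m D : ℕ} {σ : Fin D → Equiv.Perm (Fin m)} {a b : Fin m} :
    (a, b) ∈ permGraph σ ↔ ∃ j, σ j a = b := by
  simp only [permGraph, mem_image, mem_univ, true_and, Prod.mk.injEq, Prod.exists]
  constructor
  · rintro ⟨a', j, rfl, h⟩
    exact ⟨j, h⟩
  · rintro ⟨j, h⟩
    exact ⟨a, j, rfl, h⟩

lemma permGraph_left {m D : ℕ} (σ : Fin D → Equiv.Perm (Fin m)) (a : Fin m) :
    ((permGraph σ).filter fun e => e.1 = a).card ≤ D := by
  have : ((permGraph σ).filter fun e => e.1 = a) ⊆ univ.image fun j : Fin D => (a, σ j a) := by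
    rintro ⟨a', b⟩ h
    obtain ⟨h1, rfl⟩ := mem_filter.1 h
    obtain ⟨j, rfl⟩ := mem_permGraph.1 h1
    simp
  exact (card_le_card this).trans (card_image_le.trans (by simp))

lemma card_fiber_le {m D : ℕ} (E : Finset (Fin m × Fin m))
    (hdeg : ∀ a, (E.filter fun e => e.1 = a).card ≤ D) :
    (univ.filter fun σ : Fin D → Equiv.Perm (Fin m) => permGraph σ = E).card ≤ (D ^ D) ^ m := by
  let N : Fin m → Finset (Fin m) := fun a => (E.filter fun e => e.1 = a).image Prod.snd
  have hN : ∀ a, (N a).card ≤ D := fun a => card_image_le.trans (hdeg a)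
  have h1 : (univ.filter fun σ : Fin D → Equiv.Perm (Fin m) => permGraph σ = E).card ≤
      (Fintype.piFinset fun a : Fin m => Fintype.piFinset fun _ : Fin D => N a).card := by
    refine card_le_card_of_injOn (fun σ a j => σ j a) ?_ ?_
    · intro σ hσ
      have hσ' : permGraph σ = E := by simpa using hσ
      simp only [mem_coe, Fintype.mem_piFinset, N]
      intro a j
      simp only [mem_image, mem_filter]
      exact ⟨(a, σ j a), ⟨hσ' ▸ mem_permGraph.2 ⟨j, rfl⟩, rfl⟩, rfl⟩
    · intro σ _ τ _ h
      funext j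
      ext a
      exact congrArg Fin.val (congrFun (congrFun h a) j)
  refine h1.trans ?_
  rw [Fintype.card_piFinset]
  refine (prod_le_pow_card _ _ (D ^ D) fun a _ => ?_).trans (by simp)
  rw [Fintype.card_piFinset]
  exact (prod_le_pow_card _ _ D fun _ _ => hN a).trans (by simp)

lemma counting {m t₀ D : ℕ} (h : ∀ σ : Fin D → Equiv.Perm (Fin m), Rep t₀ (permGraph σ)) :
    m.factorial ^ D ≤ (D ^ D) ^ m * (t₀ ^ (2 * m) *
      (((D + 1) * (2 * t₀ * (2 * t₀)) + 1) ^ (2 * m * (2 * t₀)) * 2 ^ (D * m))) := by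
  classical
  have h1 := card_le_mul_card_image_of_maps_to
    (f := fun σ : Fin D → Equiv.Perm (Fin m) => permGraph σ) (s := univ)
    (t := univ.filter fun E : Finset (Fin m × Fin m) =>
      (∀ a, (E.filter fun e => e.1 = a).card ≤ D) ∧ Rep t₀ E)
    (fun σ _ => mem_filter.2 ⟨mem_univ _, permGraph_left σ, h σ⟩) ((D ^ D) ^ m)
    (fun E hE => card_fiber_le E (mem_filter.1 hE).2.1)
  have h2 := card_rep_le m t₀ D
  rw [card_univ, Fintype.card_fun, Fintype.card_perm, Fintype.card_fin, Fintype.card_fin] at h1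
  refine h1.trans (Nat.mul_le_mul_left _ ?_)
  convert h2

lemma one_le_log {n : ℕ} (hn : 3 ≤ n) : 1 ≤ Real.log n := by
  rw [Real.le_log_iff_exp_le (by positivity)]
  have : (3 : ℝ) ≤ n := by exact_mod_cast hn
  linarith [Real.exp_one_lt_d9]

lemma analysis {n m t D : ℕ} (hD : 2 ≤ D) (hn : 512 * D ^ 2 ≤ n) (hm : n ≤ 4 * m) (ht : 1 ≤ t)
    (h : m.factorial ^ D ≤ (D ^ D) ^ m * (t ^ (2 * m) *
      (((D + 1) * (2 * t * (2 * t)) + 1) ^ (2 * m * (2 * t)) * 2 ^ (D * m)))) :
    D * Real.log n ≤ 52 * (Real.log D + Real.log (Real.log n)) * t := by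
  have hD4 : 4 ≤ D ^ 2 := by nlinarith
  have hDr : (2 : ℝ) ≤ D := by exact_mod_cast hD
  have htr : (1 : ℝ) ≤ t := by exact_mod_cast ht
  have hm0 : 0 < m := by omega
  have hmr : (0 : ℝ) < m := by exact_mod_cast hm0
  have hl2 := Real.log_two_gt_d9
  have hlD : Real.log 2 ≤ Real.log D := Real.log_le_log (by norm_num) hDr
  have hln : 9 * Real.log 2 + 2 * Real.log D ≤ Real.log n := by
    have h1 : ((2 : ℝ) ^ 9 * (D : ℝ) ^ 2) ≤ n := by
      have : ((512 * D ^ 2 : ℕ) : ℝ) ≤ n := by exact_mod_cast hn
      push_cast at this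
      linarith
    have h2 := Real.log_le_log (by positivity) h1
    rw [Real.log_mul (by positivity) (by positivity), Real.log_pow, Real.log_pow] at h2
    push_cast at h2
    exact h2
  have hll : 1 ≤ Real.log (Real.log n) := by
    rw [Real.le_log_iff_exp_le (by linarith)]
    linarith [Real.exp_one_lt_d9]
  set Λ := Real.log D + Real.log (Real.log n) with hΛ
  have hΛ1 : 1 ≤ Λ := by linarith
  by_cases hc : D * Real.log n ≤ t
  · nlinarith
  push Not at hc
  have hlt : Real.log t ≤ Λ := by
    have := Real.log_le_log (by positivity) hc.le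
    rwa [Real.log_mul (by positivity) (by linarith)] at this
  have hlt0 : 0 ≤ Real.log t := Real.log_nonneg htr
  set W : ℕ := (D + 1) * (2 * t * (2 * t)) + 1 with hW
  have hW0 : (0 : ℝ) < W := by positivity
  have hlW : Real.log W ≤ 6 * Λ := by
    have h1 : (W : ℝ) ≤ (2 : ℝ) ^ 3 * D * (t : ℝ) ^ 2 := by
      rw [hW]
      push_cast
      nlinarith [mul_le_mul hDr (one_le_pow₀ htr (n := 2)) (by norm_num) (by linarith),
        one_le_pow₀ htr (n := 2)]
    have h2 := Real.log_le_log hW0 h1
    rw [Real.log_mul (by positivity) (by positivity), Real.log_mul (by positivity) (by positivity),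
      Real.log_pow, Real.log_pow] at h2
    push_cast at h2
    linarith
  have hfact : m * Real.log m - m ≤ Real.log m.factorial := by
    have h1 := Real.pow_div_factorial_le_exp (m : ℝ) hmr.le m
    have h2 := Real.log_le_log (by positivity) h1
    rw [Real.log_div (by positivity) (by positivity), Real.log_pow, Real.log_exp] at h2
    linarith
  have hlm : Real.log n - 2 * Real.log 2 ≤ Real.log m := by
    have h1 : (n : ℝ) ≤ (2 : ℝ) ^ 2 * m := by
      have : (n : ℝ) ≤ ((4 * m : ℕ) : ℝ) := by exact_mod_cast hm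
      push_cast at this
      linarith
    have hn0 : (0 : ℝ) < n := by
      have : 0 < n := by omega
      exact_mod_cast this
    have h2 := Real.log_le_log hn0 h1
    rw [Real.log_mul (by positivity) (by positivity), Real.log_pow] at h2
    push_cast at h2
    linarith
  have hmain : D * Real.log m.factorial ≤
      m * (D * Real.log D) + (2 * m * Real.log t + (2 * m * (2 * t) * Real.log W +
        D * m * Real.log 2)) := by
    have h1 : ((m.factorial : ℝ)) ^ D ≤ ((D : ℝ) ^ D) ^ m * ((t : ℝ) ^ (2 * m) *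
        ((W : ℝ) ^ (2 * m * (2 * t)) * 2 ^ (D * m))) := by exact_mod_cast h
    have h2 := Real.log_le_log (by positivity) h1
    rw [Real.log_mul (by positivity) (by positivity), Real.log_mul (by positivity) (by positivity),
      Real.log_mul (by positivity) (by positivity)] at h2
    simp only [Real.log_pow] at h2
    push_cast at h2
    exact h2
  have h3 : m * (D * (Real.log m - 1)) ≤
      m * (D * Real.log D + 2 * Real.log t + 4 * t * Real.log W + D * Real.log 2) := by
    nlinarith [mul_le_mul_of_nonneg_left hfact (by linarith : (0 : ℝ) ≤ D)]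
  have h4 := le_of_mul_le_mul_left h3 hmr
  have h5 : D * (Real.log n / 2) ≤ D * (Real.log m - 1 - Real.log D - Real.log 2) :=
    mul_le_mul_of_nonneg_left (by linarith) (by linarith)
  have h6 : 4 * t * Real.log W ≤ 4 * t * (6 * Λ) := mul_le_mul_of_nonneg_left hlW (by linarith)
  have h7 : Λ ≤ t * Λ := by nlinarith
  nlinarith

/-- Two cliques of size `s` with no edge between them force threshold at least `s`. -/
lemma two_cliques {s d : ℕ} (t : ℤ) (x y : Fin s → Fin d → ℤ) (hs : 1 ≤ s)
    (hx : ∀ a a', a ≠ a' → t ≤ hammingDist (x a) (x a'))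
    (hy : ∀ b b', b ≠ b' → t ≤ hammingDist (y b) (y b'))
    (hxy : ∀ a b, (hammingDist (x a) (y b) : ℤ) < t) : (s : ℤ) ≤ t := by
  have hcoord : ∀ (u v : Fin s → ℤ),
      (∑ a, ∑ a', if u a ≠ u a' then (1 : ℤ) else 0) +
      (∑ b, ∑ b', if v b ≠ v b' then (1 : ℤ) else 0) ≤
      2 * ∑ a, ∑ b, if u a ≠ v b then (1 : ℤ) else 0 := by
    intro u v
    let C : Finset ℤ := univ.image u ∪ univ.image v
    have key : ∀ p q : ℤ, p ∈ C → (if p ≠ q then (1 : ℤ) else 0) =
        1 - ∑ c ∈ C, (if p = c then (1 : ℤ) else 0) * (if q = c then (1 : ℤ) else 0) := by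
      intro p q hp
      rw [sum_eq_single p]
      · by_cases h : p = q
        · simp [h]
        · simp [h, Ne.symm h]
      · intro c _ hc
        simp [Ne.symm hc]
      · exact fun h => absurd hp h
    have hu : ∀ a, u a ∈ C := fun a => mem_union_left _ (mem_image_of_mem _ (mem_univ a))
    have hv : ∀ a, v a ∈ C := fun a => mem_union_right _ (mem_image_of_mem _ (mem_univ a))
    have pair : ∀ (p q : Fin s → ℤ), (∀ a, p a ∈ C) →
        (∑ a, ∑ b, if p a ≠ q b then (1 : ℤ) else 0) = s * s - ∑ c ∈ C,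
          (∑ a, if p a = c then (1 : ℤ) else 0) * (∑ b, if q b = c then (1 : ℤ) else 0) := by
      intro p q hp
      simp only [fun a b => key (p a) (q b) (hp a), sum_sub_distrib, sum_mul_sum]
      congr 1
      · simp
      · rw [sum_comm (s := C)]
        exact sum_congr rfl fun a _ => sum_comm
    rw [pair u u hu, pair v v hv, pair u v hu]
    have gen : ∀ U V : ℤ → ℤ, 2 * ∑ c ∈ C, U c * V c ≤ ∑ c ∈ C, U c * U c + ∑ c ∈ C, V c * V c := by
      intro U V
      rw [mul_sum, ← sum_add_distrib]
      exact sum_le_sum fun c _ => by nlinarith [sq_nonneg (U c - V c)]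
    have := gen (fun c => ∑ a, if u a = c then (1 : ℤ) else 0)
      (fun c => ∑ b, if v b = c then (1 : ℤ) else 0)
    linarith
  have hdist : ∀ p q : Fin s → Fin d → ℤ, (∑ a, ∑ b, (hammingDist (p a) (q b) : ℤ)) =
      ∑ i, ∑ a, ∑ b, if p a i ≠ q b i then (1 : ℤ) else 0 := by
    intro p q
    simp only [hammingDist, card_filter]
    push_cast
    rw [sum_comm (s := (univ : Finset (Fin d)))]
    exact sum_congr rfl fun a _ => sum_comm
  have h1 : (∑ a, ∑ b, (hammingDist (x a) (x b) : ℤ)) + (∑ a, ∑ b, (hammingDist (y a) (y b) : ℤ)) ≤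
      2 * ∑ a, ∑ b, (hammingDist (x a) (y b) : ℤ) := by
    rw [hdist, hdist, hdist, ← sum_add_distrib, mul_sum]
    exact sum_le_sum fun i _ => hcoord (fun a => x a i) (fun b => y b i)
  have hlow : ∀ p : Fin s → Fin d → ℤ, (∀ a a', a ≠ a' → t ≤ hammingDist (p a) (p a')) →
      s * ((s - 1) * t) ≤ ∑ a, ∑ b, (hammingDist (p a) (p b) : ℤ) := by
    intro p hp
    have : ∀ a, (s - 1) * t ≤ ∑ b, (hammingDist (p a) (p b) : ℤ) := by
      intro a
      rw [← add_sum_erase _ _ (mem_univ a)]
      have h2 := card_nsmul_le_sum (univ.erase a) (fun b => (hammingDist (p a) (p b) : ℤ)) t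
        fun b hb => hp a b (ne_of_mem_erase hb).symm
      rw [card_erase_of_mem (mem_univ a), card_univ, Fintype.card_fin, nsmul_eq_mul,
        Nat.cast_sub hs] at h2
      simpa using h2
    have h2 := card_nsmul_le_sum univ _ _ fun a _ => this a
    simpa using h2
  have hup : (∑ a, ∑ b, (hammingDist (x a) (y b) : ℤ)) ≤ s * (s * (t - 1)) := by
    have : ∀ a, (∑ b, (hammingDist (x a) (y b) : ℤ)) ≤ s * (t - 1) := by
      intro a
      have h2 := sum_le_card_nsmul univ (fun b => (hammingDist (x a) (y b) : ℤ)) (t - 1)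
        fun b _ => by have := hxy a b; omega
      simpa using h2
    have h2 := sum_le_card_nsmul univ _ _ fun a _ => this a
    simpa using h2
  have h2 := hlow x hx
  have h3 := hlow y hy
  have hs' : (1 : ℤ) ≤ s := by exact_mod_cast hs
  nlinarith

/-- Add a vertex joined to `N` and carry the graph to `Fin n`. -/
lemma cone {W : Type} [Fintype W] [DecidableEq W] (H : SimpleGraph W) [DecidableRel H.Adj]
    (N : Finset W) (D n : ℕ) (hN : N.card = D)
    (hdeg : ∀ w, H.degree w + (if w ∈ N then 1 else 0) ≤ D) (hn : Fintype.card W + 1 = n) :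
    ∃ (G : SimpleGraph (Fin n)) (_ : DecidableRel G.Adj), G.maxDegree = D ∧
      ∃ (z : Fin n) (ι : W → Fin n), Function.Injective ι ∧ (∀ w, z ≠ ι w) ∧
        (∀ w w', G.Adj (ι w) (ι w') ↔ H.Adj w w') ∧ ∀ w, G.Adj z (ι w) ↔ w ∈ N := by
  classical
  let K : SimpleGraph (Option W) :=
    { Adj := fun u v => match u, v with
        | none, none => False
        | none, some w => w ∈ N
        | some w, none => w ∈ N
        | some w, some w' => H.Adj w w'
      symm := ⟨by
        rintro (_ | w) (_ | w') h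
        · exact h
        · exact h
        · exact h
        · exact h.symm⟩
      loopless := ⟨by
        rintro (_ | w) h
        · exact h
        · exact H.irrefl h⟩ }
  have hK0 : K.degree none = D := by
    have : K.neighborFinset none = N.map ⟨some, Option.some_injective _⟩ := by
      ext (_ | w) <;> simp [K]
    rw [← SimpleGraph.card_neighborFinset_eq_degree, this, card_map, hN]
  have hK1 : ∀ w, K.degree (some w) ≤ D := by
    intro w
    refine le_trans ?_ (hdeg w)
    rw [← SimpleGraph.card_neighborFinset_eq_degree, ← SimpleGraph.card_neighborFinset_eq_degree]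
    split_ifs with hw
    · have : K.neighborFinset (some w) ⊆
          insert none ((H.neighborFinset w).map ⟨some, Option.some_injective _⟩) := by
        rintro (_ | w') <;> simp [K]
      refine (card_le_card this).trans ((card_insert_le _ _).trans (by simp))
    · have : K.neighborFinset (some w) ⊆
          (H.neighborFinset w).map ⟨some, Option.some_injective _⟩ := by
        rintro (_ | w') <;> simp [K, hw]
      refine (card_le_card this).trans (by simp)
  have hK : K.maxDegree = D := by
    apply le_antisymm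
    · apply SimpleGraph.maxDegree_le_of_forall_degree_le
      rintro (_ | w)
      · exact hK0.le
      · exact hK1 w
    · rw [← hK0]
      exact K.degree_le_maxDegree none
  let e : Option W ≃ Fin n := Fintype.equivFinOfCardEq (by simp [hn])
  let G : SimpleGraph (Fin n) := K.comap e.symm
  let φ : G ≃g K := SimpleGraph.Iso.comap e.symm K
  refine ⟨G, inferInstance, ?_, e none, fun w => e (some w), ?_, ?_, ?_, ?_⟩
  · rw [← hK]
    exact φ.maxDegree_eq
  · intro w w' h
    simpa using h
  · intro w h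
    simp at h
  · intro w w'
    simp [G, K]
  · intro w
    simp [G, K]

lemma small_case (n D : ℕ) (hD : 2 ≤ D) (hn : D < n) :
    ∃ (G : SimpleGraph (Fin n)) (_ : DecidableRel G.Adj), G.maxDegree = D ∧
      ∀ (t : ℤ) (d : ℕ) (f : Fin n → Fin d → ℤ),
        (∀ u v, u ≠ v → (G.Adj u v ↔ t ≤ (hammingDist (f u) (f v) : ℤ))) →
        ((D / 2 : ℕ) : ℤ) ≤ t := by
  classical
  set s := D / 2 with hs
  let W := (Fin s × Bool) ⊕ (Fin (D - 2 * s) ⊕ Fin (n - 1 - D))
  let H : SimpleGraph W :=
    { Adj := fun u v => match u, v with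
        | Sum.inl p, Sum.inl q => p.1 ≠ q.1 ∧ p.2 = q.2
        | _, _ => False
      symm := ⟨by
        rintro (p | p) (q | q) h
        · exact ⟨h.1.symm, h.2.symm⟩
        · exact h
        · exact h
        · exact h⟩
      loopless := ⟨by
        rintro (p | p) h
        · exact h.1 rfl
        · exact h⟩ }
  let N : Finset W := univ.map ⟨Sum.map id Sum.inl,
    Function.Injective.sumMap Function.injective_id Sum.inl_injective⟩
  have hN : N.card = D := by
    simp only [N, card_map, card_univ, Fintype.card_sum, Fintype.card_prod, Fintype.card_fin,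
      Fintype.card_bool]
    omega
  have hdeg : ∀ w, H.degree w + (if w ∈ N then 1 else 0) ≤ D := by
    rintro (⟨a, β⟩ | p)
    · have h1 : H.neighborFinset (Sum.inl (a, β)) ⊆
          (univ.erase a).image fun a' => (Sum.inl (a', β) : W) := by
        rintro (⟨a', β'⟩ | q) h
        · simp only [SimpleGraph.mem_neighborFinset, H] at h
          obtain ⟨h1, rfl⟩ := h
          exact mem_image.2 ⟨a', mem_erase.2 ⟨h1.symm, mem_univ _⟩, rfl⟩
        · simp [H] at h
      have h2 := (card_le_card h1).trans card_image_le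
      rw [card_erase_of_mem (mem_univ a), card_univ, Fintype.card_fin,
        SimpleGraph.card_neighborFinset_eq_degree] at h2
      split_ifs <;> omega
    · have h1 : H.neighborFinset (Sum.inr p) = ∅ := by
        ext (q | q) <;> simp [H]
      rw [← SimpleGraph.card_neighborFinset_eq_degree, h1, card_empty]
      split_ifs <;> omega
  obtain ⟨G, inst, hG, z, ι, hι, -, hadj, -⟩ := cone H N D n hN hdeg (by
    simp only [W, Fintype.card_sum, Fintype.card_prod, Fintype.card_fin, Fintype.card_bool]
    omega)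
  refine ⟨G, inst, hG, fun t d f hf => ?_⟩
  refine two_cliques t (fun a => f (ι (Sum.inl (a, false)))) (fun a => f (ι (Sum.inl (a, true))))
    (by omega) ?_ ?_ ?_
  · intro a a' h
    refine (hf _ _ (hι.ne (by simpa [W] using h))).1 ((hadj _ _).2 ⟨h, rfl⟩)
  · intro a a' h
    refine (hf _ _ (hι.ne (by simpa [W] using h))).1 ((hadj _ _).2 ⟨h, rfl⟩)
  · intro a b
    by_contra hcon
    have := (hadj _ _).1 ((hf _ _ (hι.ne (by simp [W]))).2 (not_lt.1 hcon))
    simp [H] at this

lemma perm_case (n D m : ℕ) (hD : 2 ≤ D) (hn : 2 * m + D + 1 ≤ n) (hm : 1 ≤ m)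
    (σ : Fin D → Equiv.Perm (Fin m)) :
    ∃ (G : SimpleGraph (Fin n)) (_ : DecidableRel G.Adj), G.maxDegree = D ∧
      ∀ (t : ℤ) (d : ℕ) (f : Fin n → Fin d → ℤ),
        (∀ u v, u ≠ v → (G.Adj u v ↔ t ≤ (hammingDist (f u) (f v) : ℤ))) →
        1 ≤ t ∧ ∀ t₀ : ℕ, t ≤ t₀ → Rep t₀ (permGraph σ) := by
  classical
  let W := (Fin m ⊕ Fin m) ⊕ (Fin D ⊕ Fin (n - 1 - D - 2 * m))
  let H : SimpleGraph W :=
    { Adj := fun u v => match u, v with
        | Sum.inl (Sum.inl a), Sum.inl (Sum.inr b) => (a, b) ∈ permGraph σ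
        | Sum.inl (Sum.inr b), Sum.inl (Sum.inl a) => (a, b) ∈ permGraph σ
        | _, _ => False
      symm := ⟨by
        rintro ((p | p) | p) ((q | q) | q) h <;> exact h⟩
      loopless := ⟨by
        rintro ((p | p) | p) h <;> exact h⟩ }
  let N : Finset W := univ.map ⟨fun i : Fin D => Sum.inr (Sum.inl i), fun i j h => by simpa [W] using h⟩
  have hN : N.card = D := by simp [N]
  have hdeg : ∀ w, H.degree w + (if w ∈ N then 1 else 0) ≤ D := by
    rintro ((a | b) | p)
    · have h1 : H.neighborFinset (Sum.inl (Sum.inl a)) ⊆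
          univ.image fun j => (Sum.inl (Sum.inr (σ j a)) : W) := by
        rintro ((q | q) | q) h
        · simp [H] at h
        · simp only [SimpleGraph.mem_neighborFinset, H] at h
          obtain ⟨j, rfl⟩ := mem_permGraph.1 h
          exact mem_image.2 ⟨j, mem_univ _, rfl⟩
        · simp [H] at h
      have h2 := (card_le_card h1).trans card_image_le
      rw [card_univ, Fintype.card_fin, SimpleGraph.card_neighborFinset_eq_degree] at h2
      simpa [N] using h2
    · have h1 : H.neighborFinset (Sum.inl (Sum.inr b)) ⊆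
          univ.image fun j => (Sum.inl (Sum.inl ((σ j).symm b)) : W) := by
        rintro ((q | q) | q) h
        · simp only [SimpleGraph.mem_neighborFinset, H] at h
          obtain ⟨j, rfl⟩ := mem_permGraph.1 h
          exact mem_image.2 ⟨j, mem_univ _, by simp⟩
        · simp [H] at h
        · simp [H] at h
      have h2 := (card_le_card h1).trans card_image_le
      rw [card_univ, Fintype.card_fin, SimpleGraph.card_neighborFinset_eq_degree] at h2
      simpa [N] using h2
    · have h1 : H.neighborFinset (Sum.inr p) = ∅ := by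
        ext ((q | q) | q) <;> simp [H]
      rw [← SimpleGraph.card_neighborFinset_eq_degree, h1, card_empty]
      split_ifs <;> omega
  obtain ⟨G, inst, hG, z, ι, hι, hz, hadj, hzadj⟩ := cone H N D n hN hdeg (by
    simp only [W, Fintype.card_sum, Fintype.card_fin]
    omega)
  refine ⟨G, inst, hG, fun t d f hf => ?_⟩
  have hbase : ∀ w : Fin m ⊕ Fin m, (hammingDist (f (ι (Sum.inl w))) (f z) : ℤ) < t := by
    intro w
    by_contra hcon
    rw [hammingDist_comm] at hcon
    have := (hzadj _).1 ((hf _ _ (hz _)).2 (not_lt.1 hcon))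
    simp [N] at this
  have ht : 1 ≤ t := by
    have := hbase (Sum.inl ⟨0, hm⟩)
    omega
  refine ⟨ht, fun t₀ ht₀ => ⟨t.toNat, d, fun a => f (ι (Sum.inl (Sum.inl a))),
    fun b => f (ι (Sum.inl (Sum.inr b))), f z, by omega, fun a => ?_, fun b => ?_, fun a b => ?_⟩⟩
  · have := hbase (Sum.inl a)
    beta_reduce
    omega
  · have := hbase (Sum.inr b)
    beta_reduce
    omega
  · have h1 := hf (ι (Sum.inl (Sum.inl a))) (ι (Sum.inl (Sum.inr b))) (hι.ne (by simp [W]))
    rw [hadj] at h1
    refine Iff.trans h1 ?_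
    beta_reduce
    omega

theorem lower_bound (n D : ℕ) (hD : 2 ≤ D) (hn : D < n) :
    ∃ (G : SimpleGraph (Fin n)) (_ : DecidableRel G.Adj), G.maxDegree = D ∧
      ∀ (t : ℤ) (d : ℕ) (f : Fin n → Fin d → ℤ),
        (∀ u v, u ≠ v → (G.Adj u v ↔ t ≤ (hammingDist (f u) (f v) : ℤ))) →
        D * Real.log n ≤ 52 * (Real.log D + Real.log (Real.log n)) * t := by
  have hDr : (2 : ℝ) ≤ D := by exact_mod_cast hD
  have hl2 := Real.log_two_gt_d9
  have hlD : Real.log 2 ≤ Real.log D := Real.log_le_log (by norm_num) hDr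
  have hll : 0 ≤ Real.log (Real.log n) := Real.log_nonneg (one_le_log (by omega))
  by_cases hc : 512 * D ^ 2 ≤ n
  · by_contra hcon
    have hD4 : 2 * D ≤ D ^ 2 := by nlinarith
    set m := (n - 1 - D) / 2 with hm
    have hall : ∀ σ : Fin D → Equiv.Perm (Fin m), ∃ t : ℕ, 1 ≤ t ∧
        52 * (Real.log D + Real.log (Real.log n)) * t < D * Real.log n ∧
        ∀ t₀ : ℕ, t ≤ t₀ → Rep t₀ (permGraph σ) := by
      intro σ
      obtain ⟨G, inst, hG, h⟩ := perm_case n D m hD (by omega) (by omega) σ
      by_contra hno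
      refine hcon ⟨G, inst, hG, fun t d f hf => ?_⟩
      obtain ⟨h1, h2⟩ := h t d f hf
      by_contra hlt
      refine hno ⟨t.toNat, by omega, ?_, fun t₀ ht₀ => h2 t₀ (by omega)⟩
      have : ((t.toNat : ℕ) : ℝ) = (t : ℝ) := by
        have : ((t.toNat : ℕ) : ℤ) = t := Int.toNat_of_nonneg (by omega)
        exact_mod_cast congrArg (fun z : ℤ => (z : ℝ)) this
      rw [this]
      exact not_le.1 hlt
    choose τ hτ1 hτ2 hτ3 using hall
    obtain ⟨σ₀, -, hσ₀⟩ := exists_max_image univ τ univ_nonempty
    have h1 := counting (t₀ := τ σ₀) fun σ => hτ3 σ _ (hσ₀ σ (mem_univ _))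
    exact absurd (analysis hD hc (by omega) (hτ1 σ₀) h1) (not_le.2 (hτ2 σ₀))
  · obtain ⟨G, inst, hG, h⟩ := small_case n D hD hn
    refine ⟨G, inst, hG, fun t d f hf => ?_⟩
    have h1 := h t d f hf
    have h2 : (D : ℝ) ≤ 3 * t := by
      have : (D : ℤ) ≤ 3 * t := by omega
      exact_mod_cast this
    have hln : Real.log n ≤ 9 * Real.log 2 + 2 * Real.log D := by
      have h3 : (n : ℝ) ≤ (2 : ℝ) ^ 9 * (D : ℝ) ^ 2 := by
        have : (n : ℝ) ≤ ((512 * D ^ 2 : ℕ) : ℝ) := by exact_mod_cast (not_le.1 hc).le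
        push_cast at this
        linarith
      have hn0 : (0 : ℝ) < n := by
        have : 0 < n := by omega
        exact_mod_cast this
      have h4 := Real.log_le_log hn0 h3
      rw [Real.log_mul (by positivity) (by positivity), Real.log_pow, Real.log_pow] at h4
      push_cast at h4
      exact h4
    set Λ := Real.log D + Real.log (Real.log n) with hΛ
    have h3 : Real.log n ≤ 11 * Λ := by linarith
    have h4 : D * Real.log n ≤ D * (11 * Λ) := mul_le_mul_of_nonneg_left h3 (by linarith)
    have h5 : D * (11 * Λ) ≤ 3 * t * (11 * Λ) := mul_le_mul_of_nonneg_right h2 (by linarith)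
    have h6 : 0 ≤ Λ * t := mul_nonneg (by linarith) (by linarith)
    nlinarith

/-- Every finite graph has a threshold representation. -/
lemma exists_rep {n : ℕ} (G : SimpleGraph (Fin n)) :
    ∃ (t : ℤ) (d : ℕ) (f : Fin n → Fin d → ℤ),
      ∀ u v, u ≠ v → (G.Adj u v ↔ t ≤ (hammingDist (f u) (f v) : ℤ)) := by
  classical
  let e : Fin (n * n) ≃ Fin n × Fin n := finProdFinEquiv.symm
  let g : Fin n → Fin n × Fin n → Fin n := fun u p =>
    if ¬ G.Adj p.1 p.2 ∧ u = p.2 then p.1 else u
  refine ⟨(n * n : ℕ), n * n, fun u i => ((g u (e i) : ℕ) : ℤ), fun u v huv => ?_⟩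
  have hinj : ∀ a b : Fin n, ((a : ℕ) : ℤ) = ((b : ℕ) : ℤ) ↔ a = b := fun a b => by
    rw [Nat.cast_inj, Fin.val_inj]
  constructor
  · intro h
    have : hammingDist (fun i => ((g u (e i) : ℕ) : ℤ)) (fun i => ((g v (e i) : ℕ) : ℤ)) = n * n := by
      unfold hammingDist
      rw [filter_true_of_mem, card_univ, Fintype.card_fin]
      intro i _
      rw [ne_eq, hinj]
      simp only [g]
      split_ifs with h1 h2 h2
      · exact absurd (h1.2.trans h2.2.symm) huv
      · rintro h3
        exact h1.1 (by rw [h3, ← h1.2]; exact h.symm)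
      · rintro h3
        exact h2.1 (by rw [← h3, ← h2.2]; exact h)
      · exact huv
    rw [this]
  · intro h
    by_contra hadj
    have : hammingDist (fun i => ((g u (e i) : ℕ) : ℤ)) (fun i => ((g v (e i) : ℕ) : ℤ)) < n * n := by
      unfold hammingDist
      refine lt_of_lt_of_eq (card_lt_card (filter_ssubset.2 ⟨e.symm (u, v), mem_univ _, ?_⟩))
        (by simp)
      simp [g, hadj]
    beta_reduce at h
    omega

end Pool.Agent.MP_a7b5fd_co

end MrgPart1

-- marker of a merged file
example : 731051 + 425264 = 731051 + 425264 := rfl
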